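import Mathlib

/-!
Distances as functions on a compact space, the scale function and the new distance.
-/

open Set Filter Topology

noncomputable section

namespace Pool.Agent.P.MP_5ee9eb_gt

variable {X : Type} [TopologicalSpace X]

/-- A continuous distance function. -/
structure IsMet (d : X → X → ℝ) : Prop where
  self : ∀ x, d x x = 0
  symm : ∀ x y, d x y = d y x
  tri : ∀ x y z, d x z ≤ d x y + d y z
  sep : ∀ x y, d x y ≤ 0 → x = y
  cont : Continuous fun p : X × X => d p.1 p.2

theorem IsMet.nonneg {d : X → X → ℝ} (h : IsMet d) (x y : X) : 0 ≤ d x y := by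
  have := h.tri x y x
  rw [h.self, h.symm y x] at this
  linarith

theorem cont_of_tendsto {ρ : X → X → ℝ} (hs : ∀ x y, ρ x y = ρ y x)
    (ht : ∀ x y z, ρ x z ≤ ρ x y + ρ y z) (h : ∀ x, Tendsto (ρ x) (𝓝 x) (𝓝 0)) :
    Continuous fun p : X × X => ρ p.1 p.2 := by
  refine continuous_iff_continuousAt.2 fun p => ?_
  have a : Tendsto (fun q : X × X => ρ p.1 q.1 + ρ p.2 q.2) (𝓝 p) (𝓝 0) := by
    have := ((h p.1).comp (continuous_fst.tendsto p)).add ((h p.2).comp (continuous_snd.tendsto p))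
    simpa using this
  rw [ContinuousAt, tendsto_iff_dist_tendsto_zero]
  refine squeeze_zero (fun _ => dist_nonneg) (fun q => ?_) a
  rw [Real.dist_eq, abs_le]
  have h1 := ht p.1 q.1 p.2
  have h2 := ht q.1 q.2 p.2
  have h3 := ht q.1 p.1 q.2
  have h4 := ht p.1 p.2 q.2
  have h5 := hs q.1 p.1
  have h6 := hs q.2 p.2
  constructor <;> linarith

variable {n : ℕ}

/-- The properties of the scale function. -/
structure Scale (d : X → X → ℝ) (δ : X → ℝ) (G : X → Fin n → ℝ) (r0 : ℝ) (μ : X → ℝ) : Prop where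
  met : IsMet d
  d0 : ∀ x, 0 ≤ δ x
  m0 : ∀ x, 0 ≤ μ x
  le : ∀ x, μ x ≤ r0
  lip : ∀ x y, μ x ≤ μ y + d x y / 2
  pos : ∀ x, 0 < δ x → 0 < μ x
  zero : ∀ x, δ x = 0 → μ x = 0
  near : ∀ z x, d z x ≤ μ z → dist (G x) (G z) ≤ δ z ∧ δ z ≤ 2 * δ x ∧ δ x ≤ 2 * δ z

theorem exists_scale [CompactSpace X] {d : X → X → ℝ} (hd : IsMet d) {δ : X → ℝ}
    {G : X → Fin n → ℝ} (hδ : Continuous δ) (hG : Continuous G) (h0 : ∀ x, 0 ≤ δ x)
    (hne : ∃ x, δ x = 0) {r0 : ℝ} (hr : 0 < r0) : ∃ μ, Scale d δ G r0 μ := by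
  set Bad : Set (X × X) :=
    {p | δ p.1 ≤ dist (G p.2) (G p.1)} ∪ {p | δ p.1 / 2 ≤ |δ p.2 - δ p.1|} with hBad
  have hc : IsCompact Bad := by
    refine IsClosed.isCompact (IsClosed.union ?_ ?_)
    · exact isClosed_le (by fun_prop) (by fun_prop)
    · exact isClosed_le (by fun_prop) (by fun_prop)
  have hz : ∀ x, δ x = 0 → (x, x) ∈ Bad := fun x hx => Or.inl (by simp [hx])
  obtain ⟨x0, hx0⟩ := hne
  have hmin : ∀ w : X, ∃ p ∈ Bad, ∀ q ∈ Bad, d w p.1 + d p.1 p.2 ≤ d w q.1 + d q.1 q.2 := by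
    intro w
    have hf : Continuous fun p : X × X => d w p.1 + d p.1 p.2 :=
      (hd.cont.comp (continuous_const.prodMk continuous_fst)).add hd.cont
    obtain ⟨p, hp, h⟩ := hc.exists_isMinOn ⟨_, hz x0 hx0⟩ hf.continuousOn
    exact ⟨p, hp, fun q hq => h hq⟩
  choose P hP hm using hmin
  set ν : X → ℝ := fun w => d w (P w).1 + d (P w).1 (P w).2 with hν
  have ν0 : ∀ w, 0 ≤ ν w := fun w => add_nonneg (hd.nonneg _ _) (hd.nonneg _ _)
  have νl : ∀ x y, ν x ≤ ν y + d x y := fun x y => by
    have a := hm x _ (hP y)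
    have b := hd.tri x y (P y).1
    simp only [hν]
    linarith
  have νb : ∀ z x, (z, x) ∈ Bad → ν z ≤ d z x := fun z x h => by
    have a := hm z _ h
    simp only [hd.self, zero_add] at a
    exact a
  have νp : ∀ x, 0 < δ x → 0 < ν x := fun x hx => by
    refine lt_of_le_of_ne (ν0 x) fun h => ?_
    have a := hd.nonneg x (P x).1
    have b := hd.nonneg (P x).1 (P x).2
    simp only [hν] at h
    have e1 := hd.sep x (P x).1 (by linarith)
    have e2 := hd.sep (P x).1 (P x).2 (by linarith)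
    have hb := hP x
    rcases hb with hb | hb
    · simp only [mem_ofPred_eq, ← e2, ← e1, dist_self] at hb
      linarith
    · simp only [mem_ofPred_eq, ← e2, ← e1, sub_self, abs_zero] at hb
      linarith
  refine ⟨fun w => min (ν w) r0 / 2, hd, h0, fun x => ?_, fun x => ?_, fun x y => ?_,
    fun x hx => ?_, fun x hx => ?_, fun z x h => ?_⟩
  · have := le_min (ν0 x) hr.le
    linarith
  · have := min_le_right (ν x) r0
    linarith
  · have a := νl x y
    have b := hd.nonneg x y
    have c : min (ν x) r0 ≤ min (ν y) r0 + d x y := by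
      rcases le_total (ν y) r0 with h | h
      · rw [min_eq_left h]; exact (min_le_left _ _).trans a
      · rw [min_eq_right h]; exact (min_le_right _ _).trans (by linarith)
    linarith
  · have := lt_min (νp x hx) hr
    linarith
  · have a := νb x x (hz x hx)
    rw [hd.self] at a
    have b : ν x = 0 := le_antisymm a (ν0 x)
    simp [b, hr.le]
  · by_cases hb : (z, x) ∈ Bad
    · have a := νb z x hb
      have b := min_le_left (ν z) r0
      have c := ν0 z
      have e := hd.sep z x (by linarith)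
      subst e
      have := h0 z
      refine ⟨by simpa using this, by linarith, by linarith⟩
    · simp only [hBad, mem_union, mem_ofPred_eq, not_or, not_le] at hb
      have := abs_lt.1 hb.2
      refine ⟨hb.1.le, by linarith, by linarith [h0 z]⟩

/-- The properties of the new distance. -/
structure NewD (d : X → X → ℝ) (δ : X → ℝ) (G : X → Fin n → ℝ) (μ : X → ℝ) (ρ : X → X → ℝ) :
    Prop where
  self : ∀ x, ρ x x = 0
  symm : ∀ x y, ρ x y = ρ y x
  tri : ∀ x y z, ρ x z ≤ ρ x y + ρ y z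
  u1 : ∀ x y, ρ x y ≤ dist (G x) (G y) + 2 * (δ x + δ y)
  u2 : ∀ x y, d x y ≤ μ x / 8 → ρ x y ≤ 22 * δ x * (d x y / μ x)
  l1 : ∀ x y, dist (G x) (G y) ≤ ρ x y + 2 * (δ x + δ y)
  l2 : ∀ x y, δ x * min 1 (d x y / μ x) ≤ ρ x y

/-- Admissible test functions. -/
def Adm (d : X → X → ℝ) (δ : X → ℝ) (G : X → Fin n → ℝ) (μ : X → ℝ) (f : X → ℝ) : Prop :=
  (∀ x y, |f x - f y| ≤ dist (G x) (G y) + 2 * (δ x + δ y)) ∧
    ∀ x y, d x y ≤ μ x / 4 → f y - f x ≤ 10 * δ x * (d x y / μ x)

variable {d : X → X → ℝ} {δ : X → ℝ} {G : X → Fin n → ℝ} {r0 : ℝ} {μ : X → ℝ}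

theorem ratio_le {a b a' b' t k l : ℝ} (hb : 0 < b) (hb' : 0 < b') (ht : 0 ≤ t) (ha' : 0 ≤ a')
    (hk : 0 ≤ k) (h1 : a ≤ k * a') (h2 : b' ≤ l * b) : a * (t / b) ≤ k * l * a' * (t / b') := by
  have e : t / b ≤ l * (t / b') := by
    rw [← mul_div_assoc, div_le_div_iff₀ hb hb']
    nlinarith
  have p : 0 ≤ t / b := by positivity
  calc a * (t / b) ≤ k * a' * (t / b) := mul_le_mul_of_nonneg_right h1 p
    _ ≤ k * a' * (l * (t / b')) := mul_le_mul_of_nonneg_left e (by positivity)
    _ = _ := by ring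

theorem Scale.eq_of (h : Scale d δ G r0 μ) {x y : X} {c : ℝ} (hx : ¬0 < μ x)
    (hxy : d x y ≤ μ x / c) : x = y := by
  have : μ x = 0 := le_antisymm (not_lt.1 hx) (h.m0 x)
  rw [this, zero_div] at hxy
  exact h.met.sep _ _ hxy

theorem Scale.bump (h : Scale d δ G r0 μ) (z : X) :
    Adm d δ G μ fun x => δ z * max 0 (1 - d z x / μ z) := by
  have key : ∀ x, 0 < δ z * max 0 (1 - d z x / μ z) → 0 < μ z ∧ d z x ≤ μ z := fun x hx => by
    have hz : 0 < δ z := by
      rcases (h.d0 z).eq_or_lt with e | e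
      · rw [← e, zero_mul] at hx; exact absurd hx (lt_irrefl _)
      · exact e
    have hm := h.pos z hz
    have : 0 < max 0 (1 - d z x / μ z) := by
      by_contra hn
      have : max 0 (1 - d z x / μ z) = 0 := le_antisymm (not_lt.1 hn) (le_max_left _ _)
      rw [this, mul_zero] at hx
      exact lt_irrefl _ hx
    have h1 : 0 < 1 - d z x / μ z := by
      rcases lt_max_iff.1 this with e | e
      · exact absurd e (lt_irrefl _)
      · exact e
    exact ⟨hm, (div_le_one hm).1 (by linarith)⟩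
  have b0 : ∀ x, 0 ≤ δ z * max 0 (1 - d z x / μ z) := fun x =>
    mul_nonneg (h.d0 z) (le_max_left _ _)
  have b1 : ∀ x, δ z * max 0 (1 - d z x / μ z) ≤ 2 * δ x := fun x => by
    rcases (b0 x).eq_or_lt with e | e
    · rw [← e]; linarith [h.d0 x]
    · have k := key x e
      have a : max 0 (1 - d z x / μ z) ≤ 1 :=
        max_le zero_le_one (by have := div_nonneg (h.met.nonneg z x) (h.m0 z); linarith)
      have := mul_le_mul_of_nonneg_left a (h.d0 z)
      linarith [(h.near z x k.2).2.1]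
  refine ⟨fun x y => ?_, fun x y hxy => ?_⟩
  · rw [abs_le]
    have := @dist_nonneg _ _ (G x) (G y)
    constructor <;> linarith [b0 x, b0 y, b1 x, b1 y, h.d0 x, h.d0 y]
  · by_cases hx : 0 < μ x
    swap
    · obtain rfl := h.eq_of hx hxy
      simp [h.met.self]
    have p : 0 ≤ δ x * (d x y / μ x) :=
      mul_nonneg (h.d0 x) (div_nonneg (h.met.nonneg _ _) hx.le)
    rcases (b0 y).eq_or_lt with e | e
    · show δ z * max 0 (1 - d z y / μ z) - δ z * max 0 (1 - d z x / μ z) ≤ _
      rw [← e]; linarith [b0 x]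
    · have k := key y e
      have a1 := (h.near z y k.2).2.1
      have a2 := (h.near x y (by linarith)).2.2
      have a3 := h.lip x y
      have a4 := h.lip y z
      rw [h.met.symm y z] at a4
      have a5 := ratio_le (a := δ z) (b := μ z) (a' := δ x) (b' := μ x) (t := d x y) (k := 4)
        (l := 2) k.1 hx (h.met.nonneg _ _) (h.d0 x) (by norm_num) (by linarith) (by linarith)
      have a6 : max 0 (1 - d z y / μ z) ≤ max 0 (1 - d z x / μ z) + d x y / μ z := by
        have t := h.met.tri z y x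
        rw [h.met.symm y x] at t
        have t2 : d z x / μ z ≤ d z y / μ z + d x y / μ z := by
          rw [← add_div]; exact div_le_div_of_nonneg_right t k.1.le
        have t3 := div_nonneg (h.met.nonneg x y) k.1.le
        refine max_le (by linarith [le_max_left 0 (1 - d z x / μ z)]) ?_
        linarith [le_max_right 0 (1 - d z x / μ z)]
      have a7 := mul_le_mul_of_nonneg_left a6 (h.d0 z)
      show δ z * max 0 (1 - d z y / μ z) - δ z * max 0 (1 - d z x / μ z) ≤ _
      linarith

theorem Scale.coord (h : Scale d δ G r0 μ) (i : Fin n) : ∃ F : X → ℝ, Adm d δ G μ F ∧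
    ∀ x, G x i - 2 * δ x ≤ F x ∧ F x ≤ G x i := by
  set v : X → X → ℝ := fun z x => G z i + 4 * δ z * (d z x / μ z) with hv
  have self : ∀ x, d x x ≤ μ x := fun x => by rw [h.met.self]; exact h.m0 x
  have gi : ∀ z x, d z x ≤ μ z → G x i - δ z ≤ G z i := fun z x hz => by
    have a := (dist_le_pi_dist (G x) (G z) i).trans (h.near z x hz).1
    rw [Real.dist_eq] at a
    linarith [(abs_le.1 a).2]
  have low : ∀ z x, d z x ≤ μ z → G x i - 2 * δ x ≤ v z x := fun z x hz => by
    have a := gi z x hz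
    have b := (h.near z x hz).2.1
    have c : 0 ≤ 4 * δ z * (d z x / μ z) :=
      mul_nonneg (by linarith [h.d0 z]) (div_nonneg (h.met.nonneg _ _) (h.m0 z))
    simp only [hv]
    linarith
  set F : X → ℝ := fun x => sInf ((fun z => v z x) '' {z | d z x ≤ μ z}) with hF
  have bdd : ∀ x, BddBelow ((fun z => v z x) '' {z | d z x ≤ μ z}) := fun x =>
    ⟨G x i - 2 * δ x, by rintro _ ⟨z, hz, rfl⟩; exact low z x hz⟩
  have Fle : ∀ z x, d z x ≤ μ z → F x ≤ v z x := fun z x hz => csInf_le (bdd x) ⟨z, hz, rfl⟩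
  have leF : ∀ x c, (∀ z, d z x ≤ μ z → c ≤ v z x) → c ≤ F x := fun x c hc =>
    le_csInf ⟨_, x, self x, rfl⟩ (by rintro _ ⟨z, hz, rfl⟩; exact hc z hz)
  have vx : ∀ x, v x x = G x i := fun x => by simp [hv, h.met.self]
  have bd : ∀ x, G x i - 2 * δ x ≤ F x ∧ F x ≤ G x i := fun x =>
    ⟨leF x _ fun z hz => low z x hz, vx x ▸ Fle x x (self x)⟩
  refine ⟨F, ⟨fun x y => ?_, fun x y hxy => ?_⟩, bd⟩
  · have a := dist_le_pi_dist (G x) (G y) i
    rw [Real.dist_eq] at a
    have := abs_le.1 a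
    rw [abs_le]
    constructor <;> linarith [bd x, bd y, h.d0 x, h.d0 y, (bd x).1, (bd x).2, (bd y).1, (bd y).2]
  · by_cases hx : 0 < μ x
    swap
    · obtain rfl := h.eq_of hx hxy
      simp [h.met.self]
    have half : ∀ z, d z x ≤ μ z / 2 → F y - 10 * δ x * (d x y / μ x) ≤ v z x := fun z hz => by
      have hz0 : 0 < μ z := by
        by_contra hn
        obtain rfl := h.eq_of hn hz
        exact hn hx
      have a1 := h.lip x z
      rw [h.met.symm x z] at a1
      have a2 := h.met.tri z x y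
      have a3 := Fle z y (by linarith)
      have a4 := (h.near z x (by linarith)).2.1
      have a5 := ratio_le (a := δ z) (b := μ z) (a' := δ x) (b' := μ x) (t := d x y) (k := 2)
        (l := 5 / 4) hz0 hx (h.met.nonneg _ _) (h.d0 x) (by norm_num) a4 (by linarith)
      have a6 : d z y / μ z ≤ d z x / μ z + d x y / μ z := by
        rw [← add_div]; exact div_le_div_of_nonneg_right a2 hz0.le
      have a7 := mul_le_mul_of_nonneg_left a6 (h.d0 z)
      simp only [hv] at a3 ⊢
      linarith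
    have := leF x (F y - 10 * δ x * (d x y / μ x)) fun z hz => by
      by_cases hh : d z x ≤ μ z / 2
      · exact half z hh
      · have a := half x (by rw [h.met.self]; linarith)
        rw [vx] at a
        have hz0 : 0 < μ z := by linarith [not_le.1 hh]
        have b : 1 / 2 ≤ d z x / μ z := by
          rw [le_div_iff₀ hz0]; linarith [not_le.1 hh]
        have c := mul_le_mul_of_nonneg_left b (h.d0 z)
        have e := gi z x hz
        simp only [hv]
        linarith [h.d0 z]
    linarith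

theorem Scale.exists_new (h : Scale d δ G r0 μ) : ∃ ρ, NewD d δ G μ ρ := by
  set ρ : X → X → ℝ := fun x y => sSup ((fun f : X → ℝ => |f x - f y|) '' {f | Adm d δ G μ f})
    with hρ
  have z0 : Adm d δ G μ fun _ => 0 :=
    ⟨fun x y => by
      have := @dist_nonneg _ _ (G x) (G y)
      simp only [sub_self, abs_zero]
      linarith [h.d0 x, h.d0 y], fun x y _ => by
      simp only [sub_self]
      exact mul_nonneg (by linarith [h.d0 x]) (div_nonneg (h.met.nonneg _ _) (h.m0 x))⟩
  have up : ∀ x y c, (∀ f, Adm d δ G μ f → |f x - f y| ≤ c) → ρ x y ≤ c := fun x y c hc =>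
    csSup_le ⟨_, _, z0, rfl⟩ (by rintro _ ⟨f, hf, rfl⟩; exact hc f hf)
  have lo : ∀ x y f, Adm d δ G μ f → |f x - f y| ≤ ρ x y := fun x y f hf =>
    le_csSup ⟨_, by rintro _ ⟨g, hg, rfl⟩; exact hg.1 x y⟩ ⟨f, hf, rfl⟩
  have r0' : ∀ x y, 0 ≤ ρ x y := fun x y => (abs_nonneg _).trans (lo x y _ z0)
  refine ⟨ρ, fun x => le_antisymm (up x x 0 fun f _ => by simp) (r0' x x), fun x y => ?_,
    fun x y z => up x z _ fun f hf => ?_, fun x y => up x y _ fun f hf => hf.1 x y,
    fun x y hxy => up x y _ fun f hf => ?_, fun x y => ?_, fun x y => ?_⟩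
  · exact le_antisymm (up x y _ fun f hf => abs_sub_comm (f x) (f y) ▸ lo y x f hf)
      (up y x _ fun f hf => abs_sub_comm (f y) (f x) ▸ lo x y f hf)
  · exact (abs_sub_le (f x) (f y) (f z)).trans (add_le_add (lo x y f hf) (lo y z f hf))
  · by_cases hx : 0 < μ x
    swap
    · obtain rfl := h.eq_of hx hxy
      simp [h.met.self]
    have a1 := hf.2 x y (by linarith)
    have a2 := h.lip x y
    have a3 := hf.2 y x (by rw [h.met.symm]; linarith)
    rw [h.met.symm y x] at a3
    have a4 := (h.near x y (by linarith)).2.2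
    have a5 := ratio_le (a := δ y) (b := μ y) (a' := δ x) (b' := μ x) (t := d x y) (k := 2)
      (l := 16 / 15) (by linarith) hx (h.met.nonneg _ _) (h.d0 x) (by norm_num) a4 (by linarith)
    have p : 0 ≤ δ x * (d x y / μ x) :=
      mul_nonneg (h.d0 x) (div_nonneg (h.met.nonneg _ _) hx.le)
    rw [abs_le]
    constructor <;> linarith
  · have : dist (G x) (G y) ≤ ρ x y + 2 * (δ x + δ y) := by
      refine (dist_pi_le_iff (by linarith [r0' x y, h.d0 x, h.d0 y])).2 fun i => ?_
      obtain ⟨F, hF, hb⟩ := h.coord i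
      have a := abs_le.1 (lo x y F hF)
      rw [Real.dist_eq, abs_le]
      constructor <;> linarith [h.d0 x, h.d0 y, (hb x).1, (hb x).2, (hb y).1, (hb y).2]
    exact this
  · have a := (le_abs_self _).trans (lo x y _ (h.bump x))
    have e : min 1 (d x y / μ x) = 1 - max 0 (1 - d x y / μ x) := by
      rcases le_total 1 (d x y / μ x) with t | t
      · rw [min_eq_left t, max_eq_left (by linarith)]; ring
      · rw [min_eq_right t, max_eq_right (by linarith)]; ring
    simp only [h.met.self, zero_div, sub_zero, zero_le_one, max_eq_right] at a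
    rw [e]
    linarith

end Pool.Agent.P.MP_5ee9eb_gt
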