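import Pool.Agent.P.MP_5ee9eb_gt.Base

/-!
The data attached to a chart, and the basic inequalities for the new distance.
-/

open Set Filter Topology Metric

noncomputable section

namespace Pool.Agent.P.MP_5ee9eb_gt

variable {X : Type} [TopologicalSpace X] {n : ℕ}

/-- The functions attached to a cube in a chart. -/
structure Ch (φ : OpenPartialHomeomorph X (Fin n → ℝ)) (c : Fin n → ℝ) (R : ℝ) (δ : X → ℝ)
    (G : X → Fin n → ℝ) : Prop where
  R0 : 0 < R
  sub : closedBall c (2 * R) ⊆ φ.target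
  cd : Continuous δ
  cG : Continuous G
  d0 : ∀ x, 0 ≤ δ x
  dR : ∀ x, δ x ≤ R
  src : ∀ x, δ x < R → x ∈ φ.source ∧ dist (φ x) c ≤ R + δ x ∧ dist (G x) (φ x) ≤ 2 * δ x
  zero : ∀ x ∈ φ.source, dist (φ x) c ≤ R → δ x = 0
  lip : ∀ x ∈ φ.source, ∀ y ∈ φ.source, δ y ≤ δ x + dist (φ x) (φ y)

theorem exists_ch [T2Space X] (φ : OpenPartialHomeomorph X (Fin n → ℝ)) (c : Fin n → ℝ) {R : ℝ}
    (hR : 0 < R) (hs : closedBall c (2 * R) ⊆ φ.target) : ∃ δ G, Ch φ c R δ G := by
  classical
  set t : (Fin n → ℝ) → ℝ := fun w => min R (max 0 (dist w c - R)) with ht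
  have tc : Continuous t := by fun_prop
  set δ : X → ℝ := fun x => if x ∈ φ.source then t (φ x) else R with hδ
  have hK : IsClosed (φ.symm '' closedBall c (2 * R)) :=
    ((isCompact_closedBall c _).image_of_continuousOn (φ.continuousOn_symm.mono hs)).isClosed
  have out : ∀ x, x ∉ φ.source → ∀ᶠ y in 𝓝 x, δ y = R := fun x hx => by
    have : x ∈ (φ.symm '' closedBall c (2 * R))ᶜ := by
      rintro ⟨w, hw, rfl⟩
      exact hx (φ.map_target (hs hw))
    filter_upwards [hK.isOpen_compl.mem_nhds this] with y hy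
    by_cases h : y ∈ φ.source
    · have : 2 * R < dist (φ y) c := by
        by_contra hn
        exact hy ⟨φ y, mem_closedBall.2 (not_lt.1 hn), φ.left_inv h⟩
      simp only [hδ, h, if_true, ht]
      exact min_eq_left (le_max_of_le_right (by linarith))
    · simp only [hδ, h, if_false]
  have cd : Continuous δ := by
    refine continuous_iff_continuousAt.2 fun x => ?_
    by_cases hx : x ∈ φ.source
    · refine (tc.continuousAt.comp (φ.continuousAt hx)).congr ?_
      filter_upwards [φ.open_source.mem_nhds hx] with y hy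
      simp only [hδ, hy, if_true, Function.comp]
    · exact continuousAt_const.congr ((out x hx).mono fun y hy => hy.symm)
  have d0 : ∀ x, 0 ≤ δ x := fun x => by
    simp only [hδ]
    split_ifs
    · exact le_min hR.le (le_max_left _ _)
    · exact hR.le
  have sr : ∀ x, δ x < R → x ∈ φ.source ∧ dist (φ x) c ≤ R + δ x := fun x hx => by
    by_cases h : x ∈ φ.source
    · simp only [hδ, h, if_true, ht] at hx ⊢
      have a : max 0 (dist (φ x) c - R) < R := by
        rcases min_lt_iff.1 hx with e | e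
        · exact absurd e (lt_irrefl _)
        · exact e
      rw [min_eq_right a.le]
      exact ⟨trivial, by linarith [le_max_right 0 (dist (φ x) c - R)]⟩
    · simp only [hδ, h, if_false] at hx
      exact absurd hx (lt_irrefl _)
  refine ⟨δ, fun x => c + (1 - δ x / R) • (φ x - c), hR, hs, cd, ?_, d0, fun x => ?_,
    fun x hx => ⟨(sr x hx).1, (sr x hx).2, ?_⟩, fun x hx h => ?_, fun x hx y hy => ?_⟩
  · refine continuous_iff_continuousAt.2 fun x => ?_
    by_cases hx : x ∈ φ.source
    · exact continuousAt_const.add ((continuousAt_const.sub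
        (cd.continuousAt.div_const R)).smul ((φ.continuousAt hx).sub continuousAt_const))
    · refine (continuousAt_const (y := c)).congr ((out x hx).mono fun y hy => ?_)
      simp [hy, div_self hR.ne']
  · simp only [hδ]
    split_ifs
    · exact min_le_left _ _
    · exact le_rfl
  · have e : c + (1 - δ x / R) • (φ x - c) - φ x = -((δ x / R) • (φ x - c)) := by
      rw [sub_smul, one_smul]; abel
    rw [dist_eq_norm, e, norm_neg, norm_smul, Real.norm_of_nonneg (div_nonneg (d0 x) hR.le),
      ← dist_eq_norm, div_mul_eq_mul_div, div_le_iff₀ hR]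
    have := mul_le_mul_of_nonneg_left ((sr x hx).2.trans (by linarith : R + δ x ≤ 2 * R)) (d0 x)
    linarith
  · simp only [hδ, hx, if_true, ht]
    rw [max_eq_left (by linarith), min_eq_right hR.le]
  · simp only [hδ, hx, hy, if_true, ht]
    have a := dist_triangle_left (φ y) c (φ x)
    have b := @dist_nonneg _ _ (φ x) (φ y)
    have e : max 0 (dist (φ y) c - R) ≤ max 0 (dist (φ x) c - R) + dist (φ x) (φ y) :=
      max_le (by linarith [le_max_left 0 (dist (φ x) c - R)])
        (by linarith [le_max_right 0 (dist (φ x) c - R)])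
    rcases le_total R (max 0 (dist (φ x) c - R)) with h | h
    · rw [min_eq_left h]; exact (min_le_left _ _).trans (by linarith)
    · rw [min_eq_right h]; exact (min_le_right _ _).trans e

/-- A segment from inside to outside of a cube meets its boundary. -/
theorem cross {c u v : Fin n → ℝ} {R : ℝ} (hu : dist u c ≤ R) (hv : R ≤ dist v c) :
    ∃ w, dist w c = R ∧ dist u w ≤ dist u v ∧ dist v w ≤ dist u v := by
  have hc : Continuous fun τ : ℝ => dist (u + τ • (v - u)) c := by fun_prop
  obtain ⟨τ, hτ, e⟩ := intermediate_value_Icc (zero_le_one (α := ℝ)) hc.continuousOn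
    (show R ∈ Icc _ _ from ⟨by simpa using hu, by simpa using hv⟩)
  refine ⟨u + τ • (v - u), e, ?_, ?_⟩
  · rw [dist_self_add_right, norm_smul, Real.norm_of_nonneg hτ.1, dist_comm, dist_eq_norm]
    exact mul_le_of_le_one_left (norm_nonneg _) hτ.2
  · have : v - (u + τ • (v - u)) = (1 - τ) • (v - u) := by rw [sub_smul, one_smul]; abel
    rw [dist_eq_norm, this, norm_smul, Real.norm_of_nonneg (by linarith [hτ.2]), dist_comm,
      dist_eq_norm]
    exact mul_le_of_le_one_left (norm_nonneg _) (by linarith [hτ.1])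

/-- A small cube inside the big cube, close to a point close to the big cube. -/
theorem inner {c y : Fin n → ℝ} {R e s : ℝ} (hR : 0 < R) (he : 0 ≤ e) (hs : 0 ≤ s)
    (hes : s + e ≤ R) (hy : dist y c ≤ R + e) :
    ∃ p, dist p c + s ≤ R ∧ dist y p ≤ 2 * (s + e) := by
  have t0 : 0 ≤ (s + e) / R := by positivity
  have t1 : (s + e) / R ≤ 1 := (div_le_one hR).2 hes
  have t2 : (s + e) / R * R = s + e := div_mul_cancel₀ _ hR.ne'
  refine ⟨y + ((s + e) / R) • (c - y), ?_, ?_⟩
  · have : y + ((s + e) / R) • (c - y) - c = (1 - (s + e) / R) • (y - c) := by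
      rw [sub_smul, one_smul, smul_sub, smul_sub]; abel
    rw [dist_eq_norm, this, norm_smul, Real.norm_of_nonneg (by linarith), ← dist_eq_norm]
    have a := mul_le_mul_of_nonneg_left hy (by linarith : 0 ≤ 1 - (s + e) / R)
    have b := mul_nonneg t0 he
    nlinarith
  · rw [dist_self_add_right, norm_smul, Real.norm_of_nonneg t0, ← dist_eq_norm, dist_comm]
    have a := mul_le_mul_of_nonneg_left (hy.trans (by linarith : R + e ≤ 2 * R)) t0
    linarith

/-- All data of one step. -/
structure Dat (φ : OpenPartialHomeomorph X (Fin n → ℝ)) (c : Fin n → ℝ) (R : ℝ)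
    (d : X → X → ℝ) (δ : X → ℝ) (G : X → Fin n → ℝ) (r0 : ℝ) (μ : X → ℝ) (ρ : X → X → ℝ) :
    Prop where
  ch : Ch φ c R δ G
  sc : Scale d δ G r0 μ
  nw : NewD d δ G μ ρ

variable {φ : OpenPartialHomeomorph X (Fin n → ℝ)} {c : Fin n → ℝ} {R : ℝ}
  {d : X → X → ℝ} {δ : X → ℝ} {G : X → Fin n → ℝ} {r0 : ℝ} {μ : X → ℝ} {ρ : X → X → ℝ}

namespace Dat

theorem nonneg (h : Dat φ c R d δ G r0 μ ρ) (x y : X) : 0 ≤ ρ x y := by
  have := h.nw.tri x y x
  rw [h.nw.self, h.nw.symm y x] at this
  linarith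

theorem dle (h : Dat φ c R d δ G r0 μ ρ) (x y : X) : δ y ≤ 2 * δ x + ρ x y := by
  have a := h.nonneg x y
  have b := h.ch.d0 x
  by_cases hxy : d y x ≤ μ y
  · linarith [(h.sc.near y x hxy).2.1]
  · rcases (h.ch.d0 y).eq_or_lt with e | e
    · linarith
    · have m := h.sc.pos y e
      have l := h.nw.l2 y x
      rw [min_eq_left ((one_le_div m).2 (not_le.1 hxy).le), h.nw.symm] at l
      linarith

theorem upφ (h : Dat φ c R d δ G r0 μ ρ) {x y : X} (hx : δ x < R) (hy : δ y < R) :
    ρ x y ≤ dist (φ x) (φ y) + 4 * (δ x + δ y) := by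
  have a := dist_triangle4_right (G x) (G y) (φ x) (φ y)
  linarith [h.nw.u1 x y, (h.ch.src x hx).2.2, (h.ch.src y hy).2.2]

theorem loφ (h : Dat φ c R d δ G r0 μ ρ) {x y : X} (hx : δ x < R) (hy : δ y < R) :
    dist (φ x) (φ y) ≤ ρ x y + 4 * (δ x + δ y) := by
  have a := dist_triangle4_left (φ x) (G x) (φ y) (G y)
  have b := dist_triangle4 (φ x) (G x) (G y) (φ y)
  rw [dist_comm (φ x) (G x)] at b
  linarith [h.nw.l1 x y, (h.ch.src x hx).2.2, (h.ch.src y hy).2.2]

theorem eqφ (h : Dat φ c R d δ G r0 μ ρ) {x y : X} (hx : δ x = 0) (hy : δ y = 0) :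
    ρ x y = dist (φ x) (φ y) := by
  have a := h.upφ (x := x) (y := y) (hx ▸ h.ch.R0) (hy ▸ h.ch.R0)
  have b := h.loφ (x := x) (y := y) (hx ▸ h.ch.R0) (hy ▸ h.ch.R0)
  rw [hx, hy] at a b
  linarith

theorem small (h : Dat φ c R d δ G r0 μ ρ) {x y : X} (hxy : ρ x y < δ x) :
    δ x * (d x y / μ x) ≤ ρ x y := by
  have l := h.nw.l2 x y
  rcases le_total 1 (d x y / μ x) with t | t
  · rw [min_eq_left t] at l; linarith
  · rwa [min_eq_right t] at l

theorem cmp (h : Dat φ c R d δ G r0 μ ρ) {x y y' : X} (hx : 0 < μ x) (hy : d x y ≤ μ x / 32)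
    (hy' : d x y' ≤ μ x / 32) :
    δ x * (d y y' / μ x) ≤ 3 * ρ y y' ∧ ρ y y' ≤ 66 * (δ x * (d y y' / μ x)) := by
  have a1 := h.sc.lip x y
  have a2 := h.sc.lip y x
  have a3 := h.sc.met.tri y x y'
  rw [h.sc.met.symm y x] at a2 a3
  have a4 := h.sc.near x y (by linarith)
  have hm : 0 < μ y := by linarith
  have nn := h.sc.met.nonneg y y'
  constructor
  · have l := h.nw.l2 y y'
    rw [min_eq_right ((div_le_one hm).2 (by linarith))] at l
    have := ratio_le (a := δ x) (b := μ x) (a' := δ y) (b' := μ y) (t := d y y') (k := 2)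
      (l := 3 / 2) hx hm nn (h.ch.d0 y) (by norm_num) a4.2.1 (by linarith)
    linarith
  · have u := h.nw.u2 y y' (by linarith)
    have := ratio_le (a := δ y) (b := μ y) (a' := δ x) (b' := μ x) (t := d y y') (k := 2)
      (l := 3 / 2) hm hx nn (h.ch.d0 x) (by norm_num) a4.2.2 (by linarith)
    linarith

theorem met (h : Dat φ c R d δ G r0 μ ρ) : IsMet ρ := by
  have sp : ∀ x y, 0 < δ x → ρ x y ≤ 0 → x = y := fun x y hx hxy => by
    have a := h.small (x := x) (y := y) (by linarith)
    have m := h.sc.pos x hx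
    refine h.sc.met.sep x y ?_
    by_contra hn
    have := mul_pos hx (div_pos (not_le.1 hn) m)
    linarith
  refine ⟨h.nw.self, h.nw.symm, h.nw.tri, fun x y hxy => ?_,
    cont_of_tendsto h.nw.symm h.nw.tri fun x => ?_⟩
  · rcases (h.ch.d0 x).eq_or_lt with e | e
    · rcases (h.ch.d0 y).eq_or_lt with e' | e'
      · rw [h.eqφ e.symm e'.symm] at hxy
        exact φ.injOn (h.ch.src x (e ▸ h.ch.R0)).1 (h.ch.src y (e' ▸ h.ch.R0)).1
          (dist_le_zero.1 hxy)
      · exact (sp y x e' (h.nw.symm x y ▸ hxy)).symm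
    · exact sp x y e hxy
  · rcases (h.ch.d0 x).eq_or_lt with e | e
    · have hc : Continuous fun y => dist (G x) (G y) + 2 * (δ x + δ y) := by
        have := h.ch.cd
        have := h.ch.cG
        fun_prop
      exact squeeze_zero (h.nonneg x) (h.nw.u1 x) (hc.tendsto' x 0 (by simp [← e]))
    · have m := h.sc.pos x e
      have c0 : Continuous fun y => d x y := h.sc.met.cont.comp (continuous_const.prodMk continuous_id)
      have hc : Continuous fun y => 22 * δ x * (d x y / μ x) := by fun_prop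
      refine squeeze_zero' (Eventually.of_forall (h.nonneg x)) ?_
        (hc.tendsto' x 0 (by simp [h.sc.met.self]))
      filter_upwards [(c0.tendsto' x 0 (h.sc.met.self x)).eventually
        (gt_mem_nhds (by linarith : 0 < μ x / 8))] with y hy
      exact h.nw.u2 x y hy.le

/-- Points of the chart. -/
theorem pt (h : Dat φ c R d δ G r0 μ ρ) {w : Fin n → ℝ} (hw : dist w c ≤ R) :
    φ.symm w ∈ φ.source ∧ φ (φ.symm w) = w ∧ δ (φ.symm w) = 0 := by
  have ht : w ∈ φ.target := h.ch.sub (mem_closedBall.2 (by linarith [h.ch.R0]))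
  have e := φ.right_inv ht
  exact ⟨φ.map_target ht, e, h.ch.zero _ (φ.map_target ht) (by rwa [e])⟩

end Dat

end Pool.Agent.P.MP_5ee9eb_gt
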