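import Pool.Agent.P.MP_5ee9eb_gt.Step

/-!
The induction over a finite cover by cubes, and the translation to Hausdorff measure.
-/

open Set Filter Topology Metric MeasureTheory

noncomputable section

namespace Pool.Agent.P.MP_5ee9eb_gt

theorem exists_good (m : ℕ) (X : Type) [TopologicalSpace X] [T2Space X] [CompactSpace X]
    [ChartedSpace (EuclideanSpace ℝ (Fin (m + 1))) X] :
    ∃ (d : X → X → ℝ) (S : Set X) (C r0 : ℝ), Good m d univ S C r0 := by
  classical
  have := ChartedSpace.secondCountable_of_sigmaCompact (EuclideanSpace ℝ (Fin (m + 1))) X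
  have base : ∃ d : X → X → ℝ, IsMet d := by
    let := TopologicalSpace.metrizableSpaceMetric X
    exact ⟨dist, dist_self, dist_comm, dist_triangle, fun x y h => dist_le_zero.1 h,
      continuous_dist⟩
  set φ : X → OpenPartialHomeomorph X (Fin (m + 1) → ℝ) := fun x =>
    (chartAt (EuclideanSpace ℝ (Fin (m + 1))) x).transHomeomorph
      (EuclideanSpace.equiv (Fin (m + 1)) ℝ).toHomeomorph with hφ
  have hx : ∀ x, x ∈ (φ x).source := fun x => by simp [hφ]
  have hR : ∀ x, ∃ R, 0 < R ∧ closedBall (φ x x) (2 * R) ⊆ (φ x).target := fun x => by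
    obtain ⟨ε, hε, h⟩ := nhds_basis_closedBall.mem_iff.1
      ((φ x).open_target.mem_nhds ((φ x).map_source (hx x)))
    exact ⟨ε / 2, by linarith, by rwa [show 2 * (ε / 2) = ε by ring]⟩
  choose R R0 hR using hR
  set U : X → Set X := fun x => (φ x).source ∩ φ x ⁻¹' ball (φ x x) (R x) with hU
  obtain ⟨t, -, ht⟩ := isCompact_univ.elim_nhds_subcover U fun x _ =>
    ((φ x).isOpen_inter_preimage isOpen_ball).mem_nhds ⟨hx x, mem_ball_self (R0 x)⟩
  have ind : ∀ s : Finset X, ∃ (d : X → X → ℝ) (S : Set X) (C r0 : ℝ),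
      Good m d (⋃ x ∈ s, U x) S C r0 := fun s => by
    induction s using Finset.induction_on with
    | empty =>
      obtain ⟨d, hd⟩ := base
      exact ⟨d, ∅, 1, 1, hd, le_rfl, one_pos, isClosed_empty,
        ⟨∅, countable_empty, empty_subset _, fun T hT => hT.elim⟩, by simp, by simp, by simp⟩
    | insert a s _ ih =>
      obtain ⟨d, S, C, r0, g⟩ := ih
      rw [Finset.set_biUnion_insert, union_comm]
      exact step g (R0 a) (hR a)
  rw [← univ_subset_iff.1 ht]
  exact ind t

theorem IsMet.isOpen_iff {X : Type} [TopologicalSpace X] [CompactSpace X] {d : X → X → ℝ}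
    (h : IsMet d) (s : Set X) : IsOpen s ↔ ∀ x ∈ s, ∃ ε > 0, ∀ y, d x y < ε → y ∈ s := by
  have c : ∀ x, Continuous fun y => d x y := fun x =>
    h.cont.comp (continuous_const.prodMk continuous_id)
  constructor
  · intro hs x hx
    rcases sᶜ.eq_empty_or_nonempty with e | e
    · exact ⟨1, one_pos, fun y _ => by rw [compl_empty_iff.1 e]; trivial⟩
    · obtain ⟨z, hz, hm⟩ := hs.isClosed_compl.isCompact.exists_isMinOn e (c x).continuousOn
      refine ⟨d x z, ?_, fun y hy => ?_⟩
      · by_contra hn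
        exact hz (h.sep x z (not_lt.1 hn) ▸ hx)
      · by_contra hn
        exact absurd (hm hn) (not_le.2 hy)
  · intro hs
    refine isOpen_iff_mem_nhds.2 fun x hx => ?_
    obtain ⟨ε, hε, he⟩ := hs x hx
    exact mem_of_superset ((isOpen_lt (c x) continuous_const).mem_nhds
      (show d x x < ε by rw [h.self]; exact hε)) he

section

variable {Y Z : Type} [MetricSpace Y] [MetricSpace Z]

theorem anti {T : Set Y} {f : Y → Z} {L : ℝ}
    (h : ∀ y ∈ T, ∀ y' ∈ T, dist y y' ≤ L * dist (f y) (f y')) :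
    AntilipschitzWith L.toNNReal fun y : T => f y :=
  AntilipschitzWith.of_le_mul_dist fun y y' => (h y y.2 y' y'.2).trans
    (mul_le_mul_of_nonneg_right (Real.le_coe_toNNReal L) dist_nonneg)

theorem dim_le {m : ℕ} {S : Set Y} (h : Thin m dist S) : dimH S ≤ m := by
  obtain ⟨𝒯, hc, hs, hT⟩ := h
  refine (dimH_mono hs).trans ?_
  rw [dimH_sUnion hc]
  refine iSup₂_le fun T hT' => ?_
  obtain ⟨ψ, L, hL⟩ := hT T hT'
  have a := (anti hL).le_dimH_image univ
  rw [← (isometry_subtype_coe (s := T)).dimH_image, image_univ, Subtype.range_coe] at a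
  exact a.trans ((dimH_mono (subset_univ _)).trans (Real.dimH_univ_pi_fin m).le)

variable [MeasurableSpace Y] [BorelSpace Y] [MeasurableSpace Z] [BorelSpace Z]

theorem meas_le {T : Set Y} {W : Set Z} {f : Y → Z} {L : ℝ} (hL : 0 ≤ L)
    (h : ∀ y ∈ T, ∀ y' ∈ T, dist y y' ≤ L * dist (f y) (f y')) (hW : ∀ y ∈ T, f y ∈ W) :
    μH[(4 : ℝ)] T ≤ ENNReal.ofReal (L ^ 4) * μH[(4 : ℝ)] W := by
  have a := (anti h).le_hausdorffMeasure_image (d := 4) (by norm_num) univ
  rw [← (isometry_subtype_coe (s := T)).hausdorffMeasure_image (Or.inl (by norm_num)),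
    image_univ, Subtype.range_coe] at a
  refine a.trans (mul_le_mul' (le_of_eq ?_) (measure_mono ?_))
  · rw [ENNReal.ofReal_pow hL, ← ENNReal.rpow_natCast]
    rfl
  · rintro _ ⟨y, -, rfl⟩
    exact hW y y.2

end

theorem cube (a : Fin 4 → ℝ) {r : ℝ} (hr : 0 ≤ r) :
    μH[(4 : ℝ)] (closedBall a r) = ENNReal.ofReal ((2 * r) ^ 4) := by
  have e := hausdorffMeasure_pi_real (ι := Fin 4)
  have v := Real.volume_pi_closedBall a hr
  simp only [Fintype.card_fin, Nat.cast_ofNat] at e v
  rw [e, v]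

theorem euc (u v : Fin 4 → ℝ) :
    dist u v ≤ dist (WithLp.toLp 2 u : EuclideanSpace ℝ (Fin 4)) (WithLp.toLp 2 v) ∧
      dist (WithLp.toLp 2 u : EuclideanSpace ℝ (Fin 4)) (WithLp.toLp 2 v) ≤ 2 * dist u v := by
  refine ⟨(dist_pi_le_iff dist_nonneg).2 fun i =>
    PiLp.dist_apply_le (WithLp.toLp 2 u : EuclideanSpace ℝ (Fin 4)) (WithLp.toLp 2 v) i, ?_⟩
  rw [EuclideanSpace.dist_eq, Real.sqrt_le_left (by positivity), Fin.sum_univ_four]
  have h : ∀ i, dist (u i) (v i) ^ 2 ≤ dist u v ^ 2 := fun i =>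
    pow_le_pow_left₀ dist_nonneg (dist_le_pi_dist u v i) 2
  linarith [h 0, h 1, h 2, h 3]

theorem conv {Y : Type} [MetricSpace Y] [CompactSpace Y] [MeasurableSpace Y] [BorelSpace Y]
    {S : Set Y} {C r0 : ℝ} (g : Good 3 (dist : Y → Y → ℝ) univ S C r0) :
    ∃ (C : ℝ) (S : Set Y), 1 ≤ C ∧ IsClosed S ∧ dimH S ≤ 3 ∧
      (∀ (x : Y) (r : ℝ), 0 < r → r ≤ diam (univ : Set Y) →
        ENNReal.ofReal (C⁻¹ * r ^ 4) ≤ μH[(4 : ℝ)] (closedBall x r)) ∧
      (∀ (x : Y) (r : ℝ), 0 < r → Disjoint (ball x (C * r)) S →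
        μH[(4 : ℝ)] (closedBall x r) ≤ ENNReal.ofReal (C * r ^ 4) ∧
        ∃ ψ : Y → EuclideanSpace ℝ (Fin 4), ∀ y ∈ closedBall x r, ∀ y' ∈ closedBall x r,
          dist y y' ≤ C * dist (ψ y) (ψ y') ∧ dist (ψ y) (ψ y') ≤ C * dist y y') ∧
      ∀ (x : Y) (r : ℝ), 0 < r → r ≤ diam (univ : Set Y) / C →
        Contr (ball x r) (ball x (C * r)) := by
  obtain ⟨T, hT, hT'⟩ : ∃ T : Set Y, T.Finite ∧ ∀ _ : Y, T.Nonempty := by
    rcases isEmpty_or_nonempty Y with e | ⟨⟨y⟩⟩
    · exact ⟨∅, finite_empty, fun y => e.elim y⟩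
    · exact ⟨{y}, finite_singleton y, fun _ => singleton_nonempty y⟩
  set D := diam (univ : Set Y) with hD
  set N := max 1 (D / r0) with hN
  have N1 : 1 ≤ N := le_max_left _ _
  have N2 : D ≤ N * r0 := (div_le_iff₀ g.pos).1 (le_max_right _ _)
  have C1 := g.C1
  have r0p := g.pos
  set M := C * N with hM
  have M1 : C ≤ M := le_mul_of_one_le_right (by linarith) N1
  have M2 : N ≤ M := le_mul_of_one_le_left (by linarith) C1
  have M3 : 1 ≤ M := by linarith
  have P1 : M ≤ M ^ 8 := le_self_pow₀ M3 (by norm_num)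
  have P2 : M ^ 4 ≤ M ^ 8 := pow_le_pow_right₀ M3 (by norm_num)
  have P3 : C ^ 8 ≤ M ^ 8 := pow_le_pow_left₀ (by linarith) M1 8
  have sm : ∀ r, 0 < r → 16 * M ^ 8 * r ≤ D → r ≤ r0 := fun r hr h => by
    have a : N * r ≤ 16 * M ^ 8 * r := mul_le_mul_of_nonneg_right (by linarith) hr.le
    exact le_of_mul_le_mul_left (a.trans (h.trans N2)) (by linarith)
  have cm : ∀ r, 0 ≤ r → 2 * C * r ≤ 16 * M ^ 8 * r := fun r hr =>
    mul_le_mul_of_nonneg_right (by linarith) hr
  refine ⟨16 * M ^ 8, S ∪ T, by linarith, g.cl.union hT.isClosed, ?_, fun x r hr h => ?_,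
    fun x r hr h => ?_, fun x r hr h => ?_⟩
  · rw [dimH_union, dimH_finite hT]
    exact max_le (by simpa using dim_le g.thin) (by simp)
  · have n0 : 0 < N := by linarith
    obtain ⟨k, k1, k2⟩ := g.low x trivial (r / N) (by positivity)
      ((div_le_iff₀' n0).2 (h.trans N2))
    have a := meas_le (T := closedBall (0 : Fin 4 → ℝ) 1) (W := closedBall x r) (f := k)
      (L := M / r) (by positivity) (fun a ha b hb => by
        have := k2 a b (by simpa using ha) (by simpa using hb)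
        rw [div_mul_eq_mul_div, div_le_iff₀ n0] at this
        rw [div_mul_eq_mul_div, le_div_iff₀ hr, hM]
        linarith) (fun a ha => by
        rw [mem_closedBall, dist_comm]
        exact (k1 a (by simpa using ha)).trans (div_le_self hr.le N1))
    rw [cube _ zero_le_one] at a
    have b := mul_le_mul_right a (ENNReal.ofReal ((r / M) ^ 4))
    rw [← mul_assoc, ← ENNReal.ofReal_mul (by positivity), ← ENNReal.ofReal_mul (by positivity),
      show (r / M) ^ 4 * (M / r) ^ 4 = 1 by field_simp, ENNReal.ofReal_one, one_mul] at b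
    refine (ENNReal.ofReal_le_ofReal ?_).trans b
    rw [div_pow, inv_mul_eq_div]
    have e : r ^ 4 / (16 * M ^ 8) ≤ r ^ 4 / M ^ 4 :=
      div_le_div_of_nonneg_left (by positivity) (by positivity) (by linarith [pow_pos (by linarith : 0 < M) 8])
    have : 0 ≤ r ^ 4 / M ^ 4 := by positivity
    linarith
  · have far : ∀ z ∈ S ∪ T, 16 * M ^ 8 * r ≤ dist x z := fun z hz => by
      by_contra hn
      exact disjoint_left.1 h (mem_ball'.2 (not_le.1 hn)) hz
    obtain ⟨z, hz⟩ := hT' x
    have hr0 := sm r hr ((far z (Or.inr hz)).trans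
      (dist_le_diam_of_mem isCompact_univ.isBounded trivial trivial))
    obtain ⟨ψ, hψ⟩ := g.up x trivial r hr hr0 fun z hz => by
      have := cm r hr.le
      have := mul_nonneg (by linarith : 0 ≤ C) hr.le
      linarith [far z (Or.inl hz)]
    constructor
    · have a := meas_le (T := closedBall x r) (W := closedBall (ψ x) (C * r)) (f := ψ) (L := C)
        (by linarith) (fun y hy y' hy' => (hψ y y' (mem_closedBall'.1 hy) (mem_closedBall'.1 hy')).1)
        fun y hy => by
          have b := (hψ y x (mem_closedBall'.1 hy) (by rw [dist_self]; exact hr.le)).2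
          exact b.trans (mul_le_mul_of_nonneg_left hy (by linarith))
      rw [cube _ (by positivity), ← ENNReal.ofReal_mul (by positivity)] at a
      refine a.trans (ENNReal.ofReal_le_ofReal ?_)
      have := mul_le_mul_of_nonneg_right P3 (by positivity : 0 ≤ r ^ 4)
      linarith [show C ^ 4 * (2 * (C * r)) ^ 4 = 16 * (C ^ 8 * r ^ 4) by ring]
    · refine ⟨fun y => WithLp.toLp 2 (ψ y), fun y hy y' hy' => ?_⟩
      obtain ⟨a1, a2⟩ := hψ y y' (mem_closedBall'.1 hy) (mem_closedBall'.1 hy')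
      obtain ⟨b1, b2⟩ := euc (ψ y) (ψ y')
      have c1 := mul_le_mul_of_nonneg_left b1 (by linarith : 0 ≤ C)
      have c2 := cm _ (@dist_nonneg _ _ y y')
      have c3 := cm _ (@dist_nonneg (EuclideanSpace ℝ (Fin 4)) _ (WithLp.toLp 2 (ψ y))
        (WithLp.toLp 2 (ψ y')))
      have c4 := mul_nonneg (by linarith : 0 ≤ C) (@dist_nonneg (EuclideanSpace ℝ (Fin 4)) _
        (WithLp.toLp 2 (ψ y)) (WithLp.toLp 2 (ψ y')))
      constructor <;> linarith
  · rw [le_div_iff₀' (by positivity)] at h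
    refine (g.llc x trivial r hr (sm r hr h)).mono (fun y hy => mem_ball'.1 hy) fun y hy => ?_
    have := cm r hr.le
    have := mul_nonneg (by linarith : 0 ≤ C) hr.le
    exact mem_ball'.2 (lt_of_lt_of_le hy (by linarith))

end Pool.Agent.P.MP_5ee9eb_gt
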