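import Pool.Agent.P.MP_5ee9eb_gt.Chart

/-!
The induction step: the good properties pass to the new distance on a larger set.
-/

open Set Filter Topology Metric

noncomputable section

namespace Pool.Agent.P.MP_5ee9eb_gt

variable {X : Type} [TopologicalSpace X]

/-- The set `A` contracts to a point inside `B`. -/
def Contr (A B : Set X) : Prop := ∃ H : C(unitInterval × A, X),
  (∀ p, H (0, p) = (p : X)) ∧ (∃ y, ∀ p, H (1, p) = y) ∧ ∀ t p, H (t, p) ∈ B

theorem Contr.mono {A B A' B' : Set X} (h : Contr A B) (hA : A' ⊆ A) (hB : B ⊆ B') :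
    Contr A' B' := by
  obtain ⟨H, h0, ⟨y, h1⟩, h2⟩ := h
  refine ⟨H.comp ⟨fun q => (q.1, inclusion hA q.2), ?_⟩, fun p => h0 _, ⟨y, fun p => h1 _⟩,
    fun t p => hB (h2 _ _)⟩
  exact continuous_fst.prodMk ((continuous_inclusion hA).comp continuous_snd)

theorem contr_ball {n : ℕ} (φ : OpenPartialHomeomorph X (Fin n → ℝ)) {u : Fin n → ℝ} {s : ℝ}
    (hs : ball u s ⊆ φ.target) :
    Contr {y | y ∈ φ.source ∧ φ y ∈ ball u s} {y | y ∈ φ.source ∧ φ y ∈ ball u s} := by
  have hm : ∀ (t : unitInterval) (p : {y | y ∈ φ.source ∧ φ y ∈ ball u s}),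
      φ p + (t : ℝ) • (u - φ p) ∈ ball u s := fun t p => by
    have hu : u ∈ ball u s := mem_ball_self (dist_nonneg.trans_lt p.2.2)
    exact (convex_ball u s).add_smul_sub_mem p.2.2 hu t.2
  have c1 : Continuous fun p : {y | y ∈ φ.source ∧ φ y ∈ ball u s} => φ p :=
    φ.continuousOn.comp_continuous continuous_subtype_val fun p => p.2.1
  have c2 : Continuous fun q : unitInterval × {y | y ∈ φ.source ∧ φ y ∈ ball u s} =>
      φ q.2 + (q.1 : ℝ) • (u - φ q.2) :=
    (c1.comp continuous_snd).add ((continuous_subtype_val.comp continuous_fst).smul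
      (continuous_const.sub (c1.comp continuous_snd)))
  refine ⟨⟨fun q => φ.symm (φ q.2 + (q.1 : ℝ) • (u - φ q.2)),
    φ.continuousOn_symm.comp_continuous c2 fun q => hs (hm q.1 q.2)⟩, fun p => ?_,
    ⟨φ.symm u, fun p => ?_⟩, fun t p => ⟨φ.map_target (hs (hm t p)), ?_⟩⟩
  · simpa using φ.left_inv p.2.1
  · simp
  · simp only [ContinuousMap.coe_mk]
    rw [φ.right_inv (hs (hm t p))]
    exact hm t p

/-- The set `S` is covered by countably many Lipschitz images of subsets of `ℝ^m`. -/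
def Thin (m : ℕ) (d : X → X → ℝ) (S : Set X) : Prop :=
  ∃ 𝒯 : Set (Set X), 𝒯.Countable ∧ S ⊆ ⋃₀ 𝒯 ∧ ∀ T ∈ 𝒯, ∃ (ψ : X → Fin m → ℝ) (L : ℝ),
    ∀ y ∈ T, ∀ y' ∈ T, d y y' ≤ L * dist (ψ y) (ψ y')

/-- The induction hypothesis. -/
structure Good (m : ℕ) (d : X → X → ℝ) (K S : Set X) (C r0 : ℝ) : Prop where
  met : IsMet d
  C1 : 1 ≤ C
  pos : 0 < r0
  cl : IsClosed S
  thin : Thin m d S
  llc : ∀ x ∈ K, ∀ r, 0 < r → r ≤ r0 → Contr {y | d x y < r} {y | d x y < C * r}
  low : ∀ x ∈ K, ∀ r, 0 < r → r ≤ r0 → ∃ g : (Fin (m + 1) → ℝ) → X,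
    (∀ a, ‖a‖ ≤ 1 → d x (g a) ≤ r) ∧
      ∀ a b, ‖a‖ ≤ 1 → ‖b‖ ≤ 1 → r * dist a b ≤ C * d (g a) (g b)
  up : ∀ x ∈ K, ∀ r, 0 < r → r ≤ r0 → (∀ z ∈ S, C * r ≤ d x z) →
    ∃ ψ : X → Fin (m + 1) → ℝ, ∀ y y', d x y ≤ r → d x y' ≤ r →
      d y y' ≤ C * dist (ψ y) (ψ y') ∧ dist (ψ y) (ψ y') ≤ C * d y y'

variable {m : ℕ} {φ : OpenPartialHomeomorph X (Fin (m + 1) → ℝ)} {c : Fin (m + 1) → ℝ} {R : ℝ}
  {d : X → X → ℝ} {δ : X → ℝ} {G : X → Fin (m + 1) → ℝ} {r0 : ℝ} {μ : X → ℝ} {ρ : X → X → ℝ}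
  {K S : Set X} {C : ℝ}

namespace Dat

theorem llc (h : Dat φ c R d δ G r0 μ ρ) (g : Good m d K S C r0) {x : X} (hx : x ∈ K ∨ δ x = 0)
    {r : ℝ} (hr : 0 < r) (hR : 200 * (C * r) ≤ R) :
    Contr {y | ρ x y < r} {y | ρ x y < 1200 * C * r} := by
  have hC : r ≤ C * r := le_mul_of_one_le_left hr.le g.C1
  by_cases hs : 8 * (C * r) ≤ δ x
  · have hd : 0 < δ x := by linarith
    have hm := h.sc.pos x hd
    have xK : x ∈ K := hx.resolve_right hd.ne'
    have s0 : 0 < r * (μ x / δ x) := by positivity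
    have s1 : C * (r * (μ x / δ x)) ≤ μ x / 8 := by
      rw [← mul_assoc, ← mul_div_assoc, div_le_div_iff₀ hd (by norm_num)]
      nlinarith
    have s2 : r * (μ x / δ x) ≤ C * (r * (μ x / δ x)) := le_mul_of_one_le_left s0.le g.C1
    refine (g.llc x xK _ s0 (by linarith [h.sc.le x])).mono (fun y hy => ?_) fun y hy => ?_
    · simp only [mem_ofPred_eq] at hy ⊢
      have a := (h.small (x := x) (y := y) (by linarith)).trans_lt hy
      rw [← mul_div_assoc, div_lt_iff₀ hm] at a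
      rw [← mul_div_assoc, lt_div_iff₀ hd]
      linarith
    · simp only [mem_ofPred_eq] at hy ⊢
      have a := h.nw.u2 x y (by linarith)
      have b : δ x * (d x y / μ x) < C * r := by
        rw [← mul_assoc, ← mul_div_assoc, lt_div_iff₀ hd] at hy
        rw [← mul_div_assoc, div_lt_iff₀ hm]
        linarith
      linarith
  · have hs' := not_le.1 hs
    have hxR : δ x < R := by linarith
    obtain ⟨xs, xc, -⟩ := h.ch.src x hxR
    refine (contr_ball φ (u := φ x) (s := 101 * (C * r)) fun w hw => h.ch.sub ?_).mono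
      (fun y hy => ?_) fun y hy => ?_
    · have := dist_triangle w (φ x) c
      rw [mem_ball] at hw
      rw [mem_closedBall]
      linarith
    · simp only [mem_ofPred_eq] at hy ⊢
      have a := h.dle x y
      have hyR : δ y < R := by linarith
      have b := h.loφ hxR hyR
      refine ⟨(h.ch.src y hyR).1, ?_⟩
      rw [mem_ball, dist_comm]
      linarith
    · simp only [mem_ofPred_eq, mem_ball] at hy ⊢
      have a := h.ch.lip x xs y hy.1
      have e := hy.2
      rw [dist_comm] at e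
      have b := h.upφ hxR (show δ y < R by linarith)
      linarith

theorem low (h : Dat φ c R d δ G r0 μ ρ) (g : Good m d K S C r0) {x : X} (hx : x ∈ K ∨ δ x = 0)
    {r : ℝ} (hr : 0 < r) (hR : 200 * (C * r) ≤ R) : ∃ k : (Fin (m + 1) → ℝ) → X,
    (∀ a, ‖a‖ ≤ 1 → ρ x (k a) ≤ r) ∧
      ∀ a b, ‖a‖ ≤ 1 → ‖b‖ ≤ 1 → r * dist a b ≤ 1200 * C * ρ (k a) (k b) := by
  have hC : r ≤ C * r := le_mul_of_one_le_left hr.le g.C1
  have C0 : 0 < C := by linarith [g.C1]
  by_cases hs : r ≤ 12 * δ x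
  · have hd : 0 < δ x := by linarith
    have hm := h.sc.pos x hd
    have xK : x ∈ K := hx.resolve_right hd.ne'
    have s0 : 0 < r / 384 * (μ x / δ x) := by positivity
    have s1 : r / 384 * (μ x / δ x) ≤ μ x / 32 := by
      rw [← mul_div_assoc, div_le_div_iff₀ hd (by norm_num)]
      nlinarith
    obtain ⟨k, k1, k2⟩ := g.low x xK _ s0 (by linarith [h.sc.le x])
    refine ⟨k, fun a ha => ?_, fun a b ha hb => ?_⟩
    · have a1 := h.nw.u2 x (k a) (by linarith [k1 a ha])
      have a2 : δ x * (d x (k a) / μ x) ≤ r / 384 := by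
        have := k1 a ha
        rw [← mul_div_assoc, le_div_iff₀ hd] at this
        rw [← mul_div_assoc, div_le_iff₀ hm]
        linarith
      linarith
    · have a1 := (h.cmp hm ((k1 a ha).trans s1) ((k1 b hb).trans s1)).1
      have a2 : r / 384 * dist a b ≤ C * (δ x * (d (k a) (k b) / μ x)) := by
        have := mul_le_mul_of_nonneg_right (k2 a b ha hb) (div_pos hd hm).le
        calc r / 384 * dist a b = r / 384 * (μ x / δ x) * dist a b * (δ x / μ x) := by
              field_simp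
          _ ≤ _ := this
          _ = _ := by ring
      have a3 := mul_le_mul_of_nonneg_left a1 C0.le
      have a4 := mul_nonneg C0.le (h.nonneg (k a) (k b))
      linarith
  · have hs' := not_le.1 hs
    have d0 := h.ch.d0 x
    have hxR : δ x < R := by linarith
    obtain ⟨xs, xc, -⟩ := h.ch.src x hxR
    obtain ⟨p, p1, p2⟩ := inner (s := r / 6) h.ch.R0 d0 (by linarith) (by linarith) xc
    have q : ∀ a : Fin (m + 1) → ℝ, ‖a‖ ≤ 1 → dist (p + (r / 6) • a) p ≤ r / 6 := fun a ha => by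
      rw [dist_self_add_left, norm_smul, Real.norm_of_nonneg (by linarith)]
      exact mul_le_of_le_one_right (by linarith) ha
    have q2 : ∀ a : Fin (m + 1) → ℝ, ‖a‖ ≤ 1 → dist (p + (r / 6) • a) c ≤ R := fun a ha => by
      linarith [q a ha, dist_triangle (p + (r / 6) • a) p c]
    refine ⟨fun a => φ.symm (p + (r / 6) • a), fun a ha => ?_, fun a b ha hb => ?_⟩
    · obtain ⟨-, e1, e2⟩ := h.pt (q2 a ha)
      have a1 := h.upφ hxR (y := φ.symm (p + (r / 6) • a)) (e2 ▸ h.ch.R0)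
      rw [e1, e2] at a1
      linarith [q a ha, dist_triangle_right (φ x) (p + (r / 6) • a) p]
    · obtain ⟨-, e1, e2⟩ := h.pt (q2 a ha)
      obtain ⟨-, e3, e4⟩ := h.pt (q2 b hb)
      rw [h.eqφ e2 e4, e1, e3, dist_add_left, dist_smul₀, Real.norm_of_nonneg (by linarith)]
      have := mul_le_mul_of_nonneg_right hC (@dist_nonneg _ _ a b)
      have := mul_nonneg hr.le (@dist_nonneg _ _ a b)
      linarith

/-- The new exceptional set. -/
def newS (φ : OpenPartialHomeomorph X (Fin (m + 1) → ℝ)) (c : Fin (m + 1) → ℝ) (R : ℝ)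
    (S : Set X) : Set X :=
  (S \ (φ.source ∩ φ ⁻¹' ball c R)) ∪ φ.symm '' sphere c R

theorem up (h : Dat φ c R d δ G r0 μ ρ) (g : Good m d K S C r0) {x : X} (hx : x ∈ K ∨ δ x = 0)
    {r : ℝ} (hr : 0 < r) (hR : 200 * (C * r) ≤ R)
    (hS : ∀ z ∈ newS φ c R S, 1200 * C * r ≤ ρ x z) :
    ∃ ψ : X → Fin (m + 1) → ℝ, ∀ y y', ρ x y ≤ r → ρ x y' ≤ r →
      ρ y y' ≤ 1200 * C * dist (ψ y) (ψ y') ∧ dist (ψ y) (ψ y') ≤ 1200 * C * ρ y y' := by
  have hC : r ≤ C * r := le_mul_of_one_le_left hr.le g.C1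
  have C0 : 0 < C := by linarith [g.C1]
  have far : ∀ w, dist w c = R → δ x < R → 1200 * C * r ≤ dist (φ x) w + 4 * δ x :=
    fun w hw hxR => by
      obtain ⟨-, e1, e2⟩ := h.pt hw.le
      have a := hS (φ.symm w) (Or.inr ⟨w, hw, rfl⟩)
      have b := h.upφ hxR (y := φ.symm w) (e2 ▸ h.ch.R0)
      rw [e1, e2] at b
      linarith
  rcases (h.ch.d0 x).eq_or_lt with hd | hd
  · have hxR : δ x < R := hd ▸ h.ch.R0
    obtain ⟨xs, xc, -⟩ := h.ch.src x hxR
    have z : ∀ y, ρ x y ≤ r → δ y = 0 := fun y hy => by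
      have a := h.dle x y
      have hyR : δ y < R := by linarith
      refine h.ch.zero y (h.ch.src y hyR).1 ?_
      by_contra hn
      obtain ⟨w, w1, w2, -⟩ := cross (u := φ x) (c := c) (R := R) (by linarith) (not_le.1 hn).le
      have b := far w w1 hxR
      have e := h.loφ hxR hyR
      linarith
    refine ⟨φ, fun y y' hy hy' => ?_⟩
    rw [h.eqφ (z y hy) (z y' hy')]
    have := le_mul_of_one_le_left (@dist_nonneg _ _ (φ y) (φ y'))
      (show 1 ≤ 1200 * C by linarith [g.C1])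
    exact ⟨this, this⟩
  · have hm := h.sc.pos x hd
    have xK : x ∈ K := hx.resolve_right hd.ne'
    have big : 32 * (C * r) ≤ δ x := by
      rcases (h.ch.dR x).eq_or_lt with e | e
      · linarith
      · obtain ⟨xs, xc, -⟩ := h.ch.src x e
        obtain ⟨p, p1, p2⟩ := inner (s := 0) h.ch.R0 hd.le le_rfl (by linarith) xc
        have o : R ≤ dist (φ x) c := by
          by_contra hn
          exact hd.ne' (h.ch.zero x xs (not_le.1 hn).le)
        obtain ⟨w, w1, -, w2⟩ := cross (u := p) (c := c) (R := R) (by linarith) o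
        have b := far w w1 e
        rw [dist_comm p] at w2
        linarith
    have s0 : 0 < r * (μ x / δ x) := by positivity
    have s1 : C * (r * (μ x / δ x)) ≤ μ x / 32 := by
      rw [← mul_assoc, ← mul_div_assoc, div_le_div_iff₀ hd (by norm_num)]
      nlinarith
    have s2 : r * (μ x / δ x) ≤ C * (r * (μ x / δ x)) := le_mul_of_one_le_left s0.le g.C1
    obtain ⟨ψ, hψ⟩ := g.up x xK _ s0 (by linarith [h.sc.le x]) fun z hz => by
      by_contra hn
      have hy := not_le.1 hn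
      have a := h.nw.u2 x z (by linarith)
      have b : δ x * (d x z / μ x) < C * r := by
        rw [← mul_assoc, ← mul_div_assoc, lt_div_iff₀ hd] at hy
        rw [← mul_div_assoc, div_lt_iff₀ hm]
        linarith
      have e := (h.sc.near x z (by linarith)).2.1
      have f := hS z (Or.inl ⟨hz, fun hi => by
        have := h.ch.zero z hi.1 (mem_ball.1 hi.2).le
        linarith⟩)
      linarith
    have sub : ∀ y, ρ x y ≤ r → d x y ≤ r * (μ x / δ x) := fun y hy => by
      have a := (h.small (x := x) (y := y) (by linarith)).trans hy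
      rw [← mul_div_assoc, div_le_iff₀ hm] at a
      rw [← mul_div_assoc, le_div_iff₀ hd]
      linarith
    refine ⟨fun y => (δ x / μ x) • ψ y, fun y y' hy hy' => ?_⟩
    have k0 : 0 < δ x / μ x := div_pos hd hm
    obtain ⟨a1, a2⟩ := hψ y y' (sub y hy) (sub y' hy')
    obtain ⟨b1, b2⟩ := h.cmp hm (y := y) (y' := y') (by linarith [sub y hy])
      (by linarith [sub y' hy'])
    have e : δ x * (d y y' / μ x) = δ x / μ x * d y y' := by ring
    rw [e] at b1 b2
    rw [dist_smul₀, Real.norm_of_nonneg k0.le]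
    have c1 := mul_le_mul_of_nonneg_left a1 k0.le
    have c2 := mul_le_mul_of_nonneg_left a2 k0.le
    have c3 := mul_le_mul_of_nonneg_left b1 C0.le
    have c4 := mul_nonneg C0.le (h.nonneg y y')
    have c5 := mul_nonneg C0.le (mul_nonneg k0.le (@dist_nonneg _ _ (ψ y) (ψ y')))
    constructor <;> linarith

theorem closed [T2Space X] (h : Dat φ c R d δ G r0 μ ρ) (hS : IsClosed S) :
    IsClosed (newS φ c R S) := by
  refine (hS.sdiff (φ.isOpen_inter_preimage isOpen_ball)).union ?_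
  refine ((isCompact_sphere c R).image_of_continuousOn
    (φ.continuousOn_symm.mono fun w hw => h.ch.sub ?_)).isClosed
  rw [mem_sphere] at hw
  rw [mem_closedBall]
  linarith [h.ch.R0]

theorem thin [CompactSpace X] (h : Dat φ c R d δ G r0 μ ρ) (hS : Thin m d S) :
    Thin m ρ (newS φ c R S) := by
  obtain ⟨𝒯, hc, hs, hT⟩ := hS
  obtain ⟨D, hD⟩ : ∃ D, ∀ p : X × X, ρ p.1 p.2 ≤ D := by
    obtain ⟨D, hD⟩ := (isCompact_range h.met.cont).bddAbove
    exact ⟨D, fun p => hD ⟨p, rfl⟩⟩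
  set P : Set X × ℕ → Set X := fun q => q.1 ∩ {y | 1 / ((q.2 : ℝ) + 1) ≤ μ y} with hP
  set Q : Fin (m + 1) × Bool → Set X := fun q =>
    {y | δ y = 0 ∧ φ y q.1 = if q.2 then c q.1 + R else c q.1 - R} with hQ
  have sph : ∀ y, δ y = 0 → dist (φ y) c = R → y ∈ ⋃₀ (P '' (𝒯 ×ˢ univ) ∪ range Q) :=
    fun y hy e => by
      obtain ⟨i, hi⟩ : ∃ i, R ≤ dist (φ y i) (c i) := by
        by_contra hn
        push Not at hn
        exact ((dist_pi_lt_iff h.ch.R0).2 hn).ne e
      have a := (dist_le_pi_dist (φ y) c i).trans e.le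
      have b := le_antisymm a hi
      rw [Real.dist_eq] at b
      rcases (abs_eq h.ch.R0.le).1 b with t | t
      · exact ⟨Q (i, true), Or.inr ⟨_, rfl⟩, hy, by simp only [if_true]; linarith⟩
      · exact ⟨Q (i, false), Or.inr ⟨_, rfl⟩, hy, by simp; linarith⟩
  refine ⟨P '' (𝒯 ×ˢ univ) ∪ range Q,
    ((hc.prod countable_univ).image P).union (countable_range Q), ?_, ?_⟩
  · rintro y (⟨hy, hn⟩ | ⟨w, hw, rfl⟩)
    · rcases (h.ch.d0 y).eq_or_lt with e | e
      · obtain ⟨ys, yc, -⟩ := h.ch.src y (e ▸ h.ch.R0)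
        refine sph y e.symm (le_antisymm (by linarith) ?_)
        by_contra hh
        exact hn ⟨ys, mem_ball.2 (not_le.1 hh)⟩
      · obtain ⟨T, hT1, hT2⟩ := hs hy
        obtain ⟨k, hk⟩ := exists_nat_one_div_lt (h.sc.pos y e)
        exact ⟨P (T, k), Or.inl ⟨_, ⟨hT1, trivial⟩, rfl⟩, hT2, hk.le⟩
    · obtain ⟨-, e1, e2⟩ := h.pt (mem_sphere.1 hw).le
      exact sph _ e2 (by rw [e1]; exact hw)
  · rintro _ (⟨⟨T, k⟩, ⟨hT1, -⟩, rfl⟩ | ⟨⟨i, b⟩, rfl⟩)
    · obtain ⟨ψ, L, hL⟩ := hT T hT1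
      have k0 : (0 : ℝ) < k + 1 := by positivity
      refine ⟨ψ, (22 * R + 8 * |D|) * (k + 1) * L, fun y hy y' hy' => ?_⟩
      have m1 : 1 / ((k : ℝ) + 1) ≤ μ y := hy.2
      have m0 : 0 < μ y := (by positivity : 0 < 1 / ((k : ℝ) + 1)).trans_le m1
      have nn := h.sc.met.nonneg y y'
      have r1 : d y y' / μ y ≤ (k + 1) * d y y' := by
        rw [div_le_iff₀ m0]
        rw [div_le_iff₀ k0] at m1
        nlinarith
      have r0' : 0 ≤ d y y' / μ y := by positivity
      have R0 := h.ch.R0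
      have key : ρ y y' ≤ (22 * R + 8 * |D|) * (d y y' / μ y) := by
        by_cases hh : d y y' ≤ μ y / 8
        · have a := h.nw.u2 y y' hh
          have b := mul_le_mul_of_nonneg_right (h.ch.dR y) r0'
          have e := mul_nonneg (abs_nonneg D) r0'
          linarith
        · have a : 1 / 8 ≤ d y y' / μ y := by
            rw [le_div_iff₀ m0]; linarith [not_le.1 hh]
          have b := mul_le_mul_of_nonneg_left a (abs_nonneg D)
          have e := mul_nonneg R0.le r0'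
          have f := (hD (y, y')).trans (le_abs_self D)
          simp only at f
          linarith
      have p : 0 ≤ 22 * R + 8 * |D| := by positivity
      calc ρ y y' ≤ (22 * R + 8 * |D|) * ((k + 1) * d y y') :=
            key.trans (mul_le_mul_of_nonneg_left r1 p)
        _ ≤ (22 * R + 8 * |D|) * ((k + 1) * (L * dist (ψ y) (ψ y'))) :=
            mul_le_mul_of_nonneg_left (mul_le_mul_of_nonneg_left (hL y hy.1 y' hy'.1) k0.le) p
        _ = _ := by ring
    · refine ⟨fun y j => φ y (i.succAbove j), 1, fun y hy y' hy' => ?_⟩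
      rw [h.eqφ hy.1 hy'.1, one_mul]
      refine (dist_pi_le_iff dist_nonneg).2 fun j => ?_
      rcases Fin.eq_self_or_eq_succAbove i j with rfl | ⟨j, rfl⟩
      · have e : φ y j = φ y' j := hy.2.trans hy'.2.symm
        rw [e, dist_self]; exact dist_nonneg
      · exact dist_le_pi_dist (fun j => φ y (i.succAbove j)) (fun j => φ y' (i.succAbove j)) j

end Dat

theorem step [T2Space X] [CompactSpace X] (g : Good m d K S C r0) (hR : 0 < R)
    (hs : closedBall c (2 * R) ⊆ φ.target) :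
    ∃ ρ S' C' r', Good m ρ (K ∪ (φ.source ∩ φ ⁻¹' ball c R)) S' C' r' := by
  obtain ⟨δ, G, hc⟩ := exists_ch φ c hR hs
  have ct : c ∈ φ.target := hs (mem_closedBall_self (by linarith))
  obtain ⟨μ, hμ⟩ := exists_scale g.met hc.cd hc.cG hc.d0
    ⟨φ.symm c, hc.zero _ (φ.map_target ct) (by rw [φ.right_inv ct, dist_self]; exact hR.le)⟩ g.pos
  obtain ⟨ρ, hρ⟩ := hμ.exists_new
  have h : Dat φ c R d δ G r0 μ ρ := ⟨hc, hμ, hρ⟩
  have C0 : 0 < C := by linarith [g.C1]
  have e1 : ∀ x ∈ K ∪ (φ.source ∩ φ ⁻¹' ball c R), x ∈ K ∨ δ x = 0 := fun x hx =>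
    hx.imp id fun t => hc.zero x t.1 (mem_ball.1 t.2).le
  have e2 : ∀ r, r ≤ R / (200 * C) → 200 * (C * r) ≤ R := fun r hr => by
    rw [le_div_iff₀ (by positivity)] at hr
    linarith
  exact ⟨ρ, Dat.newS φ c R S, 1200 * C, R / (200 * C), h.met, by linarith [g.C1], by positivity,
    h.closed g.cl, h.thin g.thin, fun x hx r h0 h1 => h.llc g (e1 x hx) h0 (e2 r h1),
    fun x hx r h0 h1 => h.low g (e1 x hx) h0 (e2 r h1),
    fun x hx r h0 h1 => h.up g (e1 x hx) h0 (e2 r h1)⟩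

end Pool.Agent.P.MP_5ee9eb_gt
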